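import Pool.Agent.L7h49.PM.Def

/-!
# PM, part REG: the thin ellipse
-/

set_option autoImplicit false

namespace Pool.Agent.L7h56.PM

open Pool.Agent.L7h49.PM

/-- the inner product estimate -/
theorem core (p q u v ρ σ D L C : ℝ) (hC : 1 ≤ C) (hL : 1000 * C ≤ L)
    (hρ : 0 ≤ ρ) (hρ2 : ρ ^ 2 = p ^ 2 + q ^ 2) (hσ : 0 ≤ σ)
    (hσ2 : σ ^ 2 = (u - p) ^ 2 + (v - q) ^ 2) (hD : 0 ≤ D) (hD2 : D ^ 2 = u ^ 2 + v ^ 2)
    (hu : L - 2 * C ≤ u) (hv : |v| ≤ L / 4 + 2 * C) (h : ρ + σ ≤ D + 3 * C) :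
    3 / 5 * ρ - 6 * C ≤ p := by
  have hu0 : 0 < u := by linarith
  have hvu : 3 * |v| ≤ u := by linarith
  have hDu : u ≤ D := by
    refine le_of_sq_le_sq ?_ hD
    nlinarith [sq_nonneg v]
  have hDu2 : D ≤ 11 / 10 * u := by
    refine le_of_sq_le_sq ?_ (by positivity)
    have : 9 * v ^ 2 ≤ u ^ 2 := by
      have h1 : (3 * |v|) ^ 2 ≤ u ^ 2 := pow_le_pow_left₀ (by positivity) hvu 2
      rw [mul_pow, sq_abs] at h1
      linarith
    nlinarith
  -- Cauchy-Schwarz twice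
  have c1 : (u - p) * u + (v - q) * v ≤ σ * D := by
    refine le_of_sq_le_sq ?_ (mul_nonneg hσ hD)
    rw [mul_pow, hσ2, hD2]
    nlinarith [sq_nonneg ((u - p) * v - (v - q) * u)]
  have c2 : q * v ≤ ρ * |v| := by
    have h1 : q * v ≤ |q| * |v| := by rw [← abs_mul]; exact le_abs_self _
    have h2 : |q| ≤ ρ := by
      refine le_of_sq_le_sq ?_ hρ
      rw [sq_abs, hρ2]; nlinarith [sq_nonneg p]
    exact h1.trans (mul_le_mul_of_nonneg_right h2 (abs_nonneg _))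
  have c3 : D * (D - σ) ≤ p * u + q * v := by nlinarith
  have c4 : D * (ρ - 3 * C) ≤ D * (D - σ) := mul_le_mul_of_nonneg_left (by linarith) hD
  have c5 : ρ * |v| ≤ ρ * (D / 3) := mul_le_mul_of_nonneg_left (by linarith) hρ
  have c6 : D * (2 / 3 * ρ - 3 * C) ≤ p * u := by nlinarith
  have c7 : u * (3 / 5 * ρ - 6 * C) ≤ D * (2 / 3 * ρ - 3 * C) := by
    rcases le_total 0 (2 / 3 * ρ - 3 * C) with h1 | h1
    · have : u * (2 / 3 * ρ - 3 * C) ≤ D * (2 / 3 * ρ - 3 * C) :=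
        mul_le_mul_of_nonneg_right hDu h1
      have : 0 ≤ u * (1 / 15 * ρ + 3 * C) := by positivity
      nlinarith
    · have : 11 / 10 * u * (2 / 3 * ρ - 3 * C) ≤ D * (2 / 3 * ρ - 3 * C) :=
        mul_le_mul_of_nonpos_right hDu2 h1
      have : 0 ≤ u * ((11 / 15 - 3 / 5) * ρ + (6 - 33 / 10) * C) := by
        apply mul_nonneg hu0.le
        have : 0 ≤ (11 / 15 - 3 / 5 : ℝ) * ρ := by positivity
        have : 0 ≤ (6 - 33 / 10 : ℝ) * C := mul_nonneg (by norm_num) (by linarith)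
        linarith
      nlinarith
  have c8 : u * (3 / 5 * ρ - 6 * C) ≤ u * p := by linarith [mul_comm p u]
  exact le_of_mul_le_mul_left c8 hu0

theorem nsq (x y : E2) : ‖x - y‖ ^ 2 = (x 0 - y 0) ^ 2 + (x 1 - y 1) ^ 2 := by
  rw [EuclideanSpace.norm_sq_eq]
  simp [Fin.sum_univ_two]

theorem coord {x : E2} {a b C : ℝ} (hC : 0 ≤ C) (h : ‖x - pt a b‖ ≤ C) :
    |x 0 - a| ≤ C ∧ |x 1 - b| ≤ C := by
  have e := nsq x (pt a b)
  have e0 : (pt a b) 0 = a := by simp [pt]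
  have e1 : (pt a b) 1 = b := by simp [pt]
  rw [e0, e1] at e
  have h2 : ‖x - pt a b‖ ^ 2 ≤ C ^ 2 := pow_le_pow_left₀ (norm_nonneg _) h 2
  constructor
  · apply abs_le_of_sq_le_sq _ hC
    nlinarith [sq_nonneg (x 1 - b)]
  · apply abs_le_of_sq_le_sq _ hC
    nlinarith [sq_nonneg (x 0 - a)]

/-- `|y| ≤ r` from `r² = x² + y²` -/
theorem le_r {x y r : ℝ} (hr : 0 ≤ r) (h : r ^ 2 = x ^ 2 + y ^ 2) : |y| ≤ r :=
  abs_le_of_sq_le_sq (by nlinarith [sq_nonneg x]) hr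

theorem s_REG : S_REG := by
  intro L C y t a c w hC hL hy ht ha hc hw
  obtain ⟨ha0, ha1⟩ := coord (by linarith) ha
  obtain ⟨hc0, hc1⟩ := coord (by linarith) hc
  have nwa := nsq w a
  have nwc := nsq w c
  have nac := nsq a c
  rw [abs_le] at ha0 ha1 hc0 hc1 hy ht
  set ρ := ‖w - a‖ with hρ
  set σ := ‖w - c‖ with hσ
  set D := ‖a - c‖ with hD
  have r0 : 0 ≤ ρ := norm_nonneg _
  have s0 : 0 ≤ σ := norm_nonneg _
  have D0 : 0 ≤ D := norm_nonneg _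
  have hv : |c 1 - a 1| ≤ L / 4 + 2 * C := by
    rw [abs_le]; constructor <;> linarith
  have k1 := core (w 0 - a 0) (w 1 - a 1) (c 0 - a 0) (c 1 - a 1) ρ σ D L C hC hL r0
    (by rw [nwa]) s0 (by rw [nwc]; ring) D0 (by rw [nac]; ring) (by linarith) hv hw
  have k2 := core (c 0 - w 0) (w 1 - c 1) (c 0 - a 0) (a 1 - c 1) σ ρ D L C hC hL s0
    (by rw [nwc]; ring) r0 (by rw [nwa]; ring) D0 (by rw [nac]; ring) (by linarith)
    (by rw [abs_sub_comm]; exact hv) (by linarith)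
  have q1 : |w 1 - a 1| ≤ ρ := le_r r0 nwa
  have q2 : |w 1 - c 1| ≤ σ := le_r s0 nwc
  have q3 : D ≤ (L + 2 * C) + (L / 4 + 2 * C) := by
    refine le_of_sq_le_sq ?_ (by linarith)
    rw [nac]
    have e1 : (a 0 - c 0) ^ 2 ≤ (L + 2 * C) ^ 2 := by
      have : |a 0 - c 0| ≤ L + 2 * C := by rw [abs_le]; constructor <;> linarith
      rw [← sq_abs]
      exact pow_le_pow_left₀ (abs_nonneg _) this 2
    have e2 : (a 1 - c 1) ^ 2 ≤ (L / 4 + 2 * C) ^ 2 := by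
      rw [abs_sub_comm] at hv
      rw [← sq_abs (a 1 - c 1)]
      exact pow_le_pow_left₀ (abs_nonneg _) hv 2
    have e3 : 0 ≤ (L + 2 * C) * (L / 4 + 2 * C) := by
      apply mul_nonneg <;> linarith
    nlinarith
  rw [abs_le] at q1 q2
  have hY : -(4 / 5 * L) ≤ w 1 ∧ w 1 ≤ 4 / 5 * L := by
    rcases le_total ρ σ with h | h
    · constructor <;> linarith
    · constructor <;> linarith
  refine ⟨by linarith, by linarith, hY.1, hY.2, fun h => ?_, fun h => ?_, fun h => ?_,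
    fun h => ?_⟩
  · refine ⟨by linarith, by linarith, by linarith, by linarith⟩
  · constructor <;> linarith
  · refine ⟨by linarith, by linarith, by linarith, by linarith⟩
  · constructor <;> linarith

end Pool.Agent.L7h56.PM
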